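import Pool.Agent.U492.MV4.LWa

set_option autoImplicit false

/-! Project MV4 (helper398), package LW: means over long windows. -/

namespace Pool.Agent.U492.MV4

open MeasureTheory Filter Topology Set Pool.Agent.U398.MV

noncomputable section

variable {N : ℝ → ℕ} {g : ℕ → ℝ} {C1 : ℝ}

theorem iib {f : ℝ → ℝ} (hf : Measurable f) {a b M : ℝ} (hab : a ≤ b) (h : ∀ t, a ≤ t → t ≤ b → |f t| ≤ M) :
    IntervalIntegrable f volume a b := by
  rw [intervalIntegrable_iff_integrableOn_Ioc_of_le hab, IntegrableOn]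
  refine Integrable.of_bound hf.aestronglyMeasurable M ?_
  filter_upwards [ae_restrict_mem measurableSet_Ioc] with t ht
  exact h t ht.1.le ht.2

/-- Jensen with weights of sum at most one -/
theorem jens {m : ℕ} (c y : Fin m → ℝ) (hc : (∑ i, |c i|) ≤ 1) (k : ℕ) :
    (∑ i, c i * y i) ^ (2 * k) ≤ 1 + ∑ i, |c i| * (y i) ^ (2 * k) := by
  have h1 : |∑ i, c i * y i| ≤ ∑ i, |c i| * |y i| := by
    refine (Finset.abs_sum_le_sum_abs _ _).trans (le_of_eq ?_)
    exact Finset.sum_congr rfl fun i _ => abs_mul _ _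
  have h2 := Real.pow_arith_mean_le_arith_mean_pow (Finset.univ : Finset (Fin (m + 1)))
    (Fin.cons (1 - ∑ i, |c i|) (fun i => |c i|) : Fin (m + 1) → ℝ)
    (Fin.cons 0 (fun i => |y i|) : Fin (m + 1) → ℝ) (by
      intro i _
      refine Fin.cases ?_ (fun j => ?_) i
      · simp only [Fin.cons_zero]; linarith
      · simp only [Fin.cons_succ]; exact abs_nonneg _) (by
      rw [Fin.sum_univ_succ]
      simp only [Fin.cons_zero, Fin.cons_succ]
      ring) (by
      intro i _
      refine Fin.cases ?_ (fun j => ?_) i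
      · simp only [Fin.cons_zero]; exact le_rfl
      · simp only [Fin.cons_succ]; exact abs_nonneg _) (2 * k)
  rw [Fin.sum_univ_succ, Fin.sum_univ_succ] at h2
  simp only [Fin.cons_zero, Fin.cons_succ, mul_zero, zero_add] at h2
  have h3 : (∑ i, c i * y i) ^ (2 * k) = |∑ i, c i * y i| ^ (2 * k) := by
    rw [pow_mul, pow_mul, sq_abs]
  have h4 : |∑ i, c i * y i| ^ (2 * k) ≤ (∑ i, |c i| * |y i|) ^ (2 * k) :=
    pow_le_pow_left₀ (abs_nonneg _) h1 _
  have h5 : (1 - ∑ i, |c i|) * (0 : ℝ) ^ (2 * k) ≤ 1 := by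
    have h6 : (0 : ℝ) ^ (2 * k) ≤ 1 := pow_le_one₀ le_rfl zero_le_one
    have h7 : (0 : ℝ) ≤ 0 ^ (2 * k) := pow_nonneg le_rfl _
    have h8 : 0 ≤ ∑ i, |c i| := Finset.sum_nonneg fun i _ => abs_nonneg _
    nlinarith
  have h9 : ∑ i, |c i| * |y i| ^ (2 * k) = ∑ i, |c i| * (y i) ^ (2 * k) := by
    refine Finset.sum_congr rfl fun i _ => ?_
    rw [pow_mul, pow_mul, sq_abs]
  rw [h3]
  rw [h9] at h2
  linarith

theorem log8 {R : ℝ} (hR : 1 ≤ R) : 1 + Real.log (1 + 2 * Real.pi * R) ≤ (1 + Real.log 8) * (1 + Real.log R) := by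
  have hpi := Real.pi_lt_four
  have hpi2 := Real.pi_lt_d2
  have hpi0 := Real.pi_pos
  have h1 : Real.log (1 + 2 * Real.pi * R) ≤ Real.log (8 * R) :=
    Real.log_le_log (by positivity) (by nlinarith)
  rw [Real.log_mul (by norm_num) (by positivity)] at h1
  have h2 : 0 ≤ Real.log R := Real.log_nonneg hR
  have h3 : 0 ≤ Real.log 8 := Real.log_nonneg (by norm_num)
  nlinarith [mul_nonneg h2 h3]

/-- moments of the linear form -/
theorem Gmom (hC : 1 ≤ C1) (hN : Cnt N g C1) {T B Ca : ℝ} (hT : 20 ≤ T) (hB : 2 * B ≤ T) (hCa : 0 ≤ Ca) (hB0 : 0 ≤ B) (k : ℕ)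
    (ha : ∀ x y : ℝ, |x| ≤ B → |y| ≤ B → (∫ t in (3 * T / 4)..(3 * T), (sg N (t + x) - sg N (t + y)) ^ (2 * k)) ≤
      Ca * T * (1 + Real.log (1 + |x - y| * Real.log T)) ^ k)
    {m : ℕ} (c x : Fin m → ℝ) {R : ℝ} (hR : 1 ≤ R) (hc : (∑ i, |c i|) ≤ 1) (hc0 : (∑ i, c i) = 0)
    (hx : ∀ i, 0 ≤ x i ∧ x i ≤ B ∧ x i * Real.log T ≤ 2 * Real.pi * R) :
    (∫ t in T..(2 * T), Gf N c x t ^ (2 * k)) ≤ (1 + Ca * (1 + Real.log 8) ^ k) * T * (1 + Real.log R) ^ k := by
  have hT0 : 0 < T := by linarith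
  have hL0 : 0 ≤ Real.log T := Real.log_nonneg (by linarith)
  have hQ1 : 1 ≤ 1 + Real.log R := by linarith [Real.log_nonneg hR]
  have hsb : ∀ y : ℝ, 0 ≤ y → y ≤ B → ∀ t, 3 * T / 4 ≤ t → t ≤ 3 * T →
      |(sg N (t + y) - sg N (t + 0)) ^ (2 * k)| ≤ (4 * C1 * Real.log T) ^ (2 * k) := by
    intro y hy0 hy t ht1 ht2
    rw [abs_pow]
    apply pow_le_pow_left₀ (abs_nonneg _)
    have h1 := sgb hC hN hT (t := t + y) (by linarith) (by linarith)
    have h2 := sgb hC hN hT (t := t + 0) (by linarith) (by linarith)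
    refine (abs_sub _ _).trans ?_
    linarith
  have hsm : ∀ y : ℝ, Measurable fun t => (sg N (t + y) - sg N (t + 0)) ^ (2 * k) := fun y =>
    (((sgm hN).comp (measurable_id.add_const y)).sub ((sgm hN).comp (measurable_id.add_const 0))).pow_const _
  have hii : ∀ i, IntervalIntegrable (fun t => (sg N (t + x i) - sg N (t + 0)) ^ (2 * k)) volume (3 * T / 4) (3 * T) :=
    fun i => iib (hsm _) (by linarith) (hsb _ (hx i).1 (hx i).2.1)
  have hii' : ∀ i, IntervalIntegrable (fun t => (sg N (t + x i) - sg N (t + 0)) ^ (2 * k)) volume T (2 * T) :=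
    fun i => iib (hsm _) (by linarith) fun t h1 h2 => hsb _ (hx i).1 (hx i).2.1 t (by linarith) (by linarith)
  have hpt : ∀ t, Gf N c x t ^ (2 * k) ≤ 1 + ∑ i, |c i| * (sg N (t + x i) - sg N (t + 0)) ^ (2 * k) := by
    intro t
    have h1 := jens c (fun i => sg N (t + x i) - sg N (t + 0)) hc k
    have h2 : ∑ i, c i * (sg N (t + x i) - sg N (t + 0)) = Gf N c x t := by
      unfold Gf
      simp only [mul_sub]
      rw [Finset.sum_sub_distrib, ← Finset.sum_mul, hc0, zero_mul, sub_zero]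
    rw [h2] at h1
    exact h1
  have hGi : IntervalIntegrable (fun t => Gf N c x t ^ (2 * k)) volume T (2 * T) :=
    iib ((Gfm hN c x).pow_const _) (by linarith) (M := (2 * C1 * Real.log T) ^ (2 * k)) fun t h1 h2 => by
      rw [abs_pow]
      exact pow_le_pow_left₀ (abs_nonneg _) (Gfb hC hN hT hB c x hc (fun i => ⟨(hx i).1, (hx i).2.1⟩)
        (by linarith) (by linarith)) _
  have hsumi : IntervalIntegrable (fun t => ∑ i, |c i| * (sg N (t + x i) - sg N (t + 0)) ^ (2 * k)) volume T (2 * T) := by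
    have := IntervalIntegrable.sum (Finset.univ : Finset (Fin m))
      (f := fun i => fun t => |c i| * (sg N (t + x i) - sg N (t + 0)) ^ (2 * k)) (μ := volume) (a := T) (b := 2 * T)
      fun i _ => (hii' i).const_mul _
    refine this.congr ?_
    intro t _
    simp only [Finset.sum_apply]
  have h1 : (∫ t in T..(2 * T), Gf N c x t ^ (2 * k)) ≤
      ∫ t in T..(2 * T), (1 + ∑ i, |c i| * (sg N (t + x i) - sg N (t + 0)) ^ (2 * k)) :=
    intervalIntegral.integral_mono_on (by linarith) hGi (intervalIntegrable_const.add hsumi) fun t _ => hpt t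
  rw [intervalIntegral.integral_add intervalIntegrable_const hsumi, intervalIntegral.integral_const,
    intervalIntegral.integral_finsetSum fun i _ => (hii' i).const_mul _] at h1
  have h2 : ∀ i, (∫ t in T..(2 * T), |c i| * (sg N (t + x i) - sg N (t + 0)) ^ (2 * k)) ≤
      |c i| * (Ca * T * ((1 + Real.log 8) * (1 + Real.log R)) ^ k) := by
    intro i
    rw [intervalIntegral.integral_const_mul]
    refine mul_le_mul_of_nonneg_left ?_ (abs_nonneg _)
    have h3 : (∫ t in T..(2 * T), (sg N (t + x i) - sg N (t + 0)) ^ (2 * k)) ≤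
        ∫ t in (3 * T / 4)..(3 * T), (sg N (t + x i) - sg N (t + 0)) ^ (2 * k) := by
      refine intervalIntegral.integral_mono_interval (by linarith) (by linarith) (by linarith) ?_ (hii i)
      exact Eventually.of_forall fun t => by
        show (0 : ℝ) ≤ (sg N (t + x i) - sg N (t + 0)) ^ (2 * k)
        rw [pow_mul]
        positivity
    refine h3.trans ((ha (x i) 0 ?_ ?_).trans ?_)
    · rw [abs_of_nonneg (hx i).1]; exact (hx i).2.1
    · rw [abs_zero]; exact hB0
    · refine mul_le_mul_of_nonneg_left ?_ (by positivity)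
      rw [sub_zero, abs_of_nonneg (hx i).1]
      have h4 : 0 ≤ x i * Real.log T := mul_nonneg (hx i).1 hL0
      apply pow_le_pow_left₀
      · have := Real.log_nonneg (by linarith : (1 : ℝ) ≤ 1 + x i * Real.log T)
        linarith
      · refine le_trans ?_ (log8 hR)
        have := Real.log_le_log (by linarith : (0 : ℝ) < 1 + x i * Real.log T)
          (by linarith [(hx i).2.2] : 1 + x i * Real.log T ≤ 1 + 2 * Real.pi * R)
        linarith
  have h5 : (∑ i, ∫ t in T..(2 * T), |c i| * (sg N (t + x i) - sg N (t + 0)) ^ (2 * k)) ≤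
      Ca * T * ((1 + Real.log 8) * (1 + Real.log R)) ^ k := by
    refine (Finset.sum_le_sum fun i _ => h2 i).trans ?_
    rw [← Finset.sum_mul]
    have h8 : 0 ≤ Real.log 8 := Real.log_nonneg (by norm_num)
    have h9 : 0 ≤ Ca * T * ((1 + Real.log 8) * (1 + Real.log R)) ^ k := by positivity
    calc (∑ i, |c i|) * (Ca * T * ((1 + Real.log 8) * (1 + Real.log R)) ^ k) ≤
        1 * (Ca * T * ((1 + Real.log 8) * (1 + Real.log R)) ^ k) := mul_le_mul_of_nonneg_right hc h9
      _ = _ := one_mul _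
  have h6 : T ≤ T * (1 + Real.log R) ^ k := le_mul_of_one_le_right hT0.le (one_le_pow₀ hQ1)
  have h7 : (2 * T - T) • (1 : ℝ) = T := by rw [smul_eq_mul]; ring
  rw [h7] at h1
  rw [mul_pow] at h5
  calc (∫ t in T..(2 * T), Gf N c x t ^ (2 * k)) ≤ T + Ca * T * ((1 + Real.log 8) ^ k * (1 + Real.log R) ^ k) :=
        h1.trans (by linarith)
    _ ≤ T * (1 + Real.log R) ^ k + Ca * T * ((1 + Real.log 8) ^ k * (1 + Real.log R) ^ k) := by linarith
    _ = _ := by ring

theorem t_LW : S_LW := by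
  intro N g C1 hC hN hMom k A hA
  obtain ⟨hM1, hM2⟩ := hMom
  have hpi := Real.pi_pos
  have hpi3 := Real.pi_gt_three
  have hpi4 := Real.pi_lt_d2
  set B : ℝ := 2 * Real.pi * A with hB
  have hB0 : 0 ≤ B := by positivity
  obtain ⟨Ca, Ta, hCa, hTa, ha⟩ := hM1 k B
  obtain ⟨Cb, Tb, hCb, hTb, hb⟩ := hM1 1 B
  obtain ⟨Cc, Tc, hCc, hTc, hcc⟩ := hM2 k B
  have hl8 : 0 ≤ Real.log 8 := Real.log_nonneg (by norm_num)
  set C2 : ℝ := 1 + Ca * (1 + Real.log 8) ^ k with hC2
  set C3 : ℝ := Cb * (1 + Real.log 8) with hC3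
  have hC20 : 0 < C2 := by positivity
  have hC30 : 0 < C3 := by positivity
  set C0 : ℝ := 2 * (2 * C1) ^ k * (14 + 4 * C1) * ((k + 1).factorial : ℝ) * (1 + A) with hC0
  have hC00 : 0 ≤ C0 := by positivity
  refine ⟨C0 + (C2 + 1) * (1 + A) + (C2 + C3) + Cc, max (max 20 (2 * B)) (max Ta (max Tb Tc)), by positivity,
    le_trans (by norm_num) ((le_max_left (20 : ℝ) _).trans (le_max_left _ _)), ?_⟩
  intro T hT R K hR hRA hK hKL m c a hc hc0 haR
  have hT20 : 20 ≤ T := ((le_max_left _ _).trans (le_max_left _ _)).trans hT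
  have hTB : 2 * B ≤ T := ((le_max_right _ _).trans (le_max_left _ _)).trans hT
  have hTTa : Ta ≤ T := ((le_max_left _ _).trans (le_max_right _ _)).trans hT
  have hTTb : Tb ≤ T := (((le_max_left _ _).trans (le_max_right _ _)).trans (le_max_right _ _)).trans hT
  have hTTc : Tc ≤ T := (((le_max_right _ _).trans (le_max_right _ _)).trans (le_max_right _ _)).trans hT
  have hT0 : 0 < T := by linarith
  set L : ℝ := Real.log T with hL
  have hL1 : 1 ≤ L := by
    rw [hL, Real.le_log_iff_exp_le hT0]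
    have := Real.exp_one_lt_d9
    linarith
  have hL0 : 0 < L := by linarith
  have hR1 : (1 : ℝ) ≤ R := by exact_mod_cast hR
  have hK1 : (1 : ℝ) ≤ K := by exact_mod_cast hK
  set Q : ℝ := 1 + Real.log R with hQ
  have hQ1 : 1 ≤ Q := by
    have := Real.log_nonneg hR1
    linarith
  have hQ0 : 0 < Q := by linarith
  have hQL : Q ≤ (1 + A) * L := by
    have h1 : Real.log R ≤ R := (Real.log_le_sub_one_of_pos (by linarith)).trans (by linarith)
    have h2 : Real.log R ≤ A * L := h1.trans hRA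
    nlinarith
  set W : ℝ := 2 * Real.pi * K / L with hW
  have hW0 : 0 < W := by positivity
  have hW2 : W ≤ 2 * Real.pi := by
    rw [hW, div_le_iff₀ hL0]
    exact mul_le_mul_of_nonneg_left hKL (by positivity)
  have hWL : W * L = 2 * Real.pi * K := by rw [hW]; field_simp
  have hWT : 2 * W ≤ T := by linarith
  set x : Fin m → ℝ := fun i => 2 * Real.pi * a i / L with hx
  have hxp : ∀ i, 0 ≤ x i ∧ x i ≤ B ∧ x i * L ≤ 2 * Real.pi * R := by
    intro i
    have h1 : (a i : ℝ) ≤ R := by exact_mod_cast haR i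
    have h2 : x i * L = 2 * Real.pi * a i := by simp only [hx]; field_simp
    refine ⟨by simp only [hx]; positivity, ?_, ?_⟩
    · have h3 : x i * L ≤ B * L := by
        rw [h2, hB]
        have h4 : (a i : ℝ) ≤ A * L := h1.trans hRA
        calc 2 * Real.pi * a i ≤ 2 * Real.pi * (A * L) := mul_le_mul_of_nonneg_left h4 (by positivity)
          _ = _ := by ring
      exact le_of_mul_le_mul_right h3 hL0
    · rw [h2]
      exact mul_le_mul_of_nonneg_left h1 (by positivity)
  set G : ℝ → ℝ := Gf N c x with hG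
  have hGm : Measurable G := Gfm hN c x
  have hGb : ∀ t, T / 2 ≤ t → t ≤ 3 * T → |G t| ≤ 2 * C1 * L := fun t h1 h2 =>
    Gfb hC hN hT20 hTB c x hc (fun i => ⟨(hxp i).1, (hxp i).2.1⟩) h1 h2
  -- step 1
  set D : ℝ → ℝ := fun t => (N (t + W) : ℝ) - N t with hD
  have hDeq : ∀ t, D t = (Mf (t + W) - Mf t) + (sg N (t + W) - sg N t) := by
    intro t
    simp only [hD, sg]
    ring
  have hDb : ∀ t, T - W ≤ t → t ≤ 2 * T → D t ≤ (14 + 4 * C1) * L := by
    intro t h1 h2
    rw [hDeq]
    have h3 := (abs_le.1 (Mf_inc (T := T) (t := t) (W := W) (by linarith) (by linarith) (by linarith) hW0.le)).2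
    have h4 := sgb hC hN hT20 (t := t + W) (by linarith) (by linarith)
    have h5 := sgb hC hN hT20 (t := t) (by linarith) (by linarith)
    have h6 : W * (L / (2 * Real.pi)) = K := by
      rw [hW]; field_simp
    rw [← hL] at h3 h4 h5
    rw [h6] at h3
    have h7 := (abs_le.1 h4).2
    have h8 := (abs_le.1 h5).1
    nlinarith
  have hstep1 := PA_eq hN (T := T) (W := W) (Mb := (2 * C1 * L) ^ k) (Db := (14 + 4 * C1) * L) hW0 hWT
    (by positivity) (f := fun t => G t ^ k) (hGm.pow_const _) (fun t h1 h2 => by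
      rw [abs_pow]
      exact pow_le_pow_left₀ (abs_nonneg _) (hGb t (by linarith) (by linarith)) _) hDb
  -- second step
  set lam : ℝ := Q ^ ((k : ℝ) / 2) with hlam
  have hlam0 : 0 < lam := Real.rpow_pos_of_pos hQ0 _
  have hlam2 : lam * lam = Q ^ k := by
    rw [hlam, ← Real.rpow_add hQ0, ← Real.rpow_natCast]
    congr 1
    ring
  set P : ℝ := Q ^ (((k : ℝ) - 1) / 2) with hP
  have hP0 : 0 < P := Real.rpow_pos_of_pos hQ0 _
  have hlamP : lam ≤ P * ((1 + A) * L) := by
    have h1 : lam = P * Q ^ (1 / 2 : ℝ) := by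
      rw [hlam, hP, ← Real.rpow_add hQ0]
      congr 1
      ring
    have h2 : Q ^ (1 / 2 : ℝ) ≤ Q := by
      calc Q ^ (1 / 2 : ℝ) ≤ Q ^ (1 : ℝ) := Real.rpow_le_rpow_of_exponent_le hQ1 (by norm_num)
        _ = Q := Real.rpow_one _
    rw [h1]
    exact mul_le_mul_of_nonneg_left (h2.trans hQL) hP0.le
  have hPlow : 1 ≤ P * ((1 + A) * L) := by
    have h1 : Q ^ (-1 : ℝ) ≤ P := by
      rw [hP]
      apply Real.rpow_le_rpow_of_exponent_le hQ1
      have : (0 : ℝ) ≤ k := Nat.cast_nonneg _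
      linarith
    rw [Real.rpow_neg_one] at h1
    calc (1 : ℝ) = Q⁻¹ * Q := (inv_mul_cancel₀ hQ0.ne').symm
      _ ≤ P * ((1 + A) * L) := mul_le_mul h1 hQL hQ0.le hP0.le
  set ℓ : ℝ := 1 + Real.log (1 + K) with hℓ
  have hℓ1 : 1 ≤ ℓ := by
    have := Real.log_nonneg (by linarith : (1 : ℝ) ≤ 1 + K)
    linarith
  have hDm : Measurable D := ((Nm hN).comp (measurable_id.add_const W)).sub (Nm hN)
  have hG2 := Gmom hC hN hT20 hTB hCa.le hB0 k (ha T hTTa) c x hR1 hc hc0 hxp
  have hΔ : (∫ t in T..(2 * T), (sg N (t + W) - sg N t) ^ 2) ≤ C3 * T * ℓ := by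
    have hm2 : Measurable fun t => (sg N (t + W) - sg N t) ^ 2 :=
      (((sgm hN).comp (measurable_id.add_const W)).sub (sgm hN)).pow_const _
    have hi : IntervalIntegrable (fun t => (sg N (t + W) - sg N t) ^ 2) volume (3 * T / 4) (3 * T) := by
      refine iib hm2 (by linarith) (M := (4 * C1 * L) ^ 2) fun t h1 h2 => ?_
      rw [abs_pow]
      apply pow_le_pow_left₀ (abs_nonneg _)
      have h3 := sgb hC hN hT20 (t := t + W) (by linarith) (by linarith)
      have h4 := sgb hC hN hT20 (t := t) (by linarith) (by linarith)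
      refine (abs_sub _ _).trans ?_
      linarith
    have h3 : (∫ t in T..(2 * T), (sg N (t + W) - sg N t) ^ 2) ≤
        ∫ t in (3 * T / 4)..(3 * T), (sg N (t + W) - sg N t) ^ 2 := by
      refine intervalIntegral.integral_mono_interval (by linarith) (by linarith) (by linarith) ?_ hi
      exact Eventually.of_forall fun t => sq_nonneg _
    have h4 := hb T hTTb W 0 (by
      rw [abs_of_pos hW0, hB]
      exact hW2.trans (by nlinarith)) (by rw [abs_zero]; exact hB0)
    simp only [add_zero, mul_one, pow_one, sub_zero] at h4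
    refine h3.trans (h4.trans ?_)
    rw [abs_of_pos hW0, ← hL, hWL, hC3]
    have h5 : 1 + Real.log (1 + 2 * Real.pi * K) ≤ (1 + Real.log 8) * ℓ := by
      have h6 : Real.log (1 + 2 * Real.pi * K) ≤ Real.log (8 * (1 + K)) :=
        Real.log_le_log (by positivity) (by nlinarith)
      rw [Real.log_mul (by norm_num) (by positivity)] at h6
      nlinarith [mul_nonneg hl8 (by linarith : (0 : ℝ) ≤ ℓ - 1)]
    calc Cb * T * (1 + Real.log (1 + 2 * Real.pi * K)) ≤ Cb * T * ((1 + Real.log 8) * ℓ) :=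
          mul_le_mul_of_nonneg_left h5 (by positivity)
      _ = _ := by ring
  have hΔm : Measurable fun t => sg N (t + W) - sg N t :=
    ((sgm hN).comp (measurable_id.add_const W)).sub (sgm hN)
  -- integrability on `[T, 2T]`
  have hGb' : ∀ t, T ≤ t → t ≤ 2 * T → |G t| ≤ 2 * C1 * L := fun t h1 h2 => hGb t (by linarith) (by linarith)
  have hΔb : ∀ t, T ≤ t → t ≤ 2 * T → |sg N (t + W) - sg N t| ≤ 4 * C1 * L := by
    intro t h1 h2
    have h3 := sgb hC hN hT20 (t := t + W) (by linarith) (by linarith)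
    have h4 := sgb hC hN hT20 (t := t) (by linarith) (by linarith)
    refine (abs_sub _ _).trans ?_
    linarith
  have hDb' : ∀ t, T ≤ t → t ≤ 2 * T → |D t| ≤ (14 + 4 * C1) * L := by
    intro t h1 h2
    have h3 := hDb t (by linarith) h2
    have h4 : 0 ≤ D t := by
      have : N t ≤ N (t + W) := hN.mono (by linarith)
      have h : (N t : ℝ) ≤ N (t + W) := by exact_mod_cast this
      simp only [hD]
      linarith
    rw [abs_of_nonneg h4]
    exact h3
  have iG : IntervalIntegrable (fun t => G t ^ k) volume T (2 * T) :=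
    iib (hGm.pow_const _) (by linarith) (M := (2 * C1 * L) ^ k) fun t h1 h2 => by
      rw [abs_pow]; exact pow_le_pow_left₀ (abs_nonneg _) (hGb' t h1 h2) _
  have iG2 : IntervalIntegrable (fun t => G t ^ (2 * k)) volume T (2 * T) :=
    iib (hGm.pow_const _) (by linarith) (M := (2 * C1 * L) ^ (2 * k)) fun t h1 h2 => by
      rw [abs_pow]; exact pow_le_pow_left₀ (abs_nonneg _) (hGb' t h1 h2) _
  have iD : IntervalIntegrable (fun t => G t ^ k * D t) volume T (2 * T) :=
    iib (f := fun t => G t ^ k * D t) ((hGm.pow_const _).mul hDm) (by linarith)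
      (M := (2 * C1 * L) ^ k * ((14 + 4 * C1) * L)) fun t h1 h2 => by
      rw [abs_mul, abs_pow]
      exact mul_le_mul (pow_le_pow_left₀ (abs_nonneg _) (hGb' t h1 h2) _) (hDb' t h1 h2) (abs_nonneg _) (by positivity)
  have iΔ : IntervalIntegrable (fun t => (sg N (t + W) - sg N t) ^ 2) volume T (2 * T) :=
    iib (hΔm.pow_const _) (by linarith) (M := (4 * C1 * L) ^ 2) fun t h1 h2 => by
      rw [abs_pow]; exact pow_le_pow_left₀ (abs_nonneg _) (hΔb t h1 h2) _
  have hstep2 : |(1 / W * ∫ t in T..(2 * T), G t ^ k * D t) - L / (2 * Real.pi) * ∫ t in T..(2 * T), G t ^ k| ≤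
      lam * T * (C2 + 1) + L / K * (lam * T * ((C2 + C3) * ℓ)) := by
    have e1 : (1 / W * ∫ t in T..(2 * T), G t ^ k * D t) - L / (2 * Real.pi) * ∫ t in T..(2 * T), G t ^ k =
        1 / W * ∫ t in T..(2 * T), (G t ^ k * D t - W * (L / (2 * Real.pi)) * G t ^ k) := by
      rw [intervalIntegral.integral_sub iD (iG.const_mul _), intervalIntegral.integral_const_mul]
      field_simp
    rw [e1, abs_mul, abs_of_pos (by positivity : 0 < 1 / W)]
    set F : ℝ → ℝ := fun t => W * (G t ^ (2 * k) / lam + lam) +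
      1 / 2 * (G t ^ (2 * k) / lam + lam * (sg N (t + W) - sg N t) ^ 2) with hF
    have iF : IntervalIntegrable F volume T (2 * T) :=
      ((((iG2.div_const lam).add intervalIntegrable_const)).const_mul W).add
        (((iG2.div_const lam).add (iΔ.const_mul lam)).const_mul (1 / 2))
    have hpt : ∀ t ∈ Ioc T (2 * T), ‖G t ^ k * D t - W * (L / (2 * Real.pi)) * G t ^ k‖ ≤ F t := by
      intro t ht
      have h3 := Mf_inc (T := T) (t := t) (W := W) (by linarith) (by linarith [ht.1]) (by linarith [ht.2]) hW0.le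
      rw [← hL] at h3
      have e2 : G t ^ k * D t - W * (L / (2 * Real.pi)) * G t ^ k =
          G t ^ k * ((Mf (t + W) - Mf t - W * (L / (2 * Real.pi))) + (sg N (t + W) - sg N t)) := by
        rw [hDeq]; ring
      rw [e2, Real.norm_eq_abs, abs_mul]
      have h4 : |(Mf (t + W) - Mf t - W * (L / (2 * Real.pi))) + (sg N (t + W) - sg N t)| ≤
          2 * W + |sg N (t + W) - sg N t| := (abs_add_le _ _).trans (by linarith)
      have h5 : |G t ^ k| ^ 2 = G t ^ (2 * k) := by
        rw [sq_abs, ← pow_mul, mul_comm]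
      set u : ℝ := |G t ^ k| with hu
      have hu0 : 0 ≤ u := abs_nonneg _
      set v : ℝ := |sg N (t + W) - sg N t| with hv
      have hv2 : v ^ 2 = (sg N (t + W) - sg N t) ^ 2 := sq_abs _
      have h6 : u ≤ 1 / 2 * (u ^ 2 / lam + lam) := by
        have h7 : 0 ≤ (u - lam) ^ 2 / lam := by positivity
        have h8 : (u - lam) ^ 2 / lam = u ^ 2 / lam - 2 * u + lam := by field_simp; ring
        linarith
      have h9 : u * v ≤ 1 / 2 * (u ^ 2 / lam + lam * v ^ 2) := by
        have h7 : 0 ≤ (u - lam * v) ^ 2 / lam := by positivity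
        have h8 : (u - lam * v) ^ 2 / lam = u ^ 2 / lam - 2 * (u * v) + lam * v ^ 2 := by field_simp; ring
        linarith
      calc u * |(Mf (t + W) - Mf t - W * (L / (2 * Real.pi))) + (sg N (t + W) - sg N t)| ≤ u * (2 * W + v) :=
            mul_le_mul_of_nonneg_left h4 hu0
        _ = 2 * W * u + u * v := by ring
        _ ≤ 2 * W * (1 / 2 * (u ^ 2 / lam + lam)) + 1 / 2 * (u ^ 2 / lam + lam * v ^ 2) :=
            add_le_add (mul_le_mul_of_nonneg_left h6 (by positivity)) h9
        _ = F t := by simp only [hF, ← h5, ← hv2]; ring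
    have h10 : |∫ t in T..(2 * T), (G t ^ k * D t - W * (L / (2 * Real.pi)) * G t ^ k)| ≤ ∫ t in T..(2 * T), F t := by
      have := intervalIntegral.norm_integral_le_of_norm_le (by linarith : T ≤ 2 * T)
        (Eventually.of_forall hpt) iF
      exact this
    have h11 : ∫ t in T..(2 * T), F t = W * ((∫ t in T..(2 * T), G t ^ (2 * k)) / lam + T * lam) +
        1 / 2 * ((∫ t in T..(2 * T), G t ^ (2 * k)) / lam + lam * ∫ t in T..(2 * T), (sg N (t + W) - sg N t) ^ 2) := by
      simp only [hF]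
      rw [intervalIntegral.integral_add ((((iG2.div_const lam).add intervalIntegrable_const)).const_mul W)
        (((iG2.div_const lam).add (iΔ.const_mul lam)).const_mul (1 / 2)),
        intervalIntegral.integral_const_mul, intervalIntegral.integral_const_mul,
        intervalIntegral.integral_add (iG2.div_const lam) intervalIntegrable_const,
        intervalIntegral.integral_add (iG2.div_const lam) (iΔ.const_mul lam),
        intervalIntegral.integral_div, intervalIntegral.integral_const_mul, intervalIntegral.integral_const, smul_eq_mul]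
      ring
    have h12 : (∫ t in T..(2 * T), G t ^ (2 * k)) / lam ≤ C2 * T * lam := by
      rw [div_le_iff₀ hlam0, mul_assoc (C2 * T), hlam2]
      exact hG2
    have h13 : ∫ t in T..(2 * T), F t ≤ W * (lam * T * (C2 + 1)) + 1 / 2 * (lam * T * ((C2 + C3) * ℓ)) := by
      rw [h11]
      have h14 : lam * (∫ t in T..(2 * T), (sg N (t + W) - sg N t) ^ 2) ≤ lam * (C3 * T * ℓ) :=
        mul_le_mul_of_nonneg_left hΔ hlam0.le
      have h15 : C2 * T * lam ≤ C2 * T * lam * ℓ := le_mul_of_one_le_right (by positivity) hℓ1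
      refine add_le_add (mul_le_mul_of_nonneg_left ?_ hW0.le) (mul_le_mul_of_nonneg_left ?_ (by norm_num))
      · linarith
      · linarith
    calc 1 / W * |∫ t in T..(2 * T), (G t ^ k * D t - W * (L / (2 * Real.pi)) * G t ^ k)| ≤
        1 / W * (W * (lam * T * (C2 + 1)) + 1 / 2 * (lam * T * ((C2 + C3) * ℓ))) :=
          mul_le_mul_of_nonneg_left (h10.trans h13) (by positivity)
      _ = lam * T * (C2 + 1) + 1 / (2 * W) * (lam * T * ((C2 + C3) * ℓ)) := by field_simp
      _ ≤ lam * T * (C2 + 1) + L / K * (lam * T * ((C2 + C3) * ℓ)) := by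
          have h16 : 1 / (2 * W) ≤ L / K := by
            rw [hW, div_le_div_iff₀ (by positivity) (by positivity)]
            have e3 : L * (2 * (2 * Real.pi * K / L)) = 4 * Real.pi * K := by field_simp; ring
            rw [e3]
            nlinarith
          have h17 : 0 ≤ lam * T * ((C2 + C3) * ℓ) := by positivity
          have := mul_le_mul_of_nonneg_right h16 h17
          linarith
  -- third step
  have hstep3 : |L / (2 * Real.pi) * (∫ t in T..(2 * T), G t ^ k) - T * L / (2 * Real.pi) * gM k (VL L c x)| ≤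
      Cc * (T * L) * P := by
    have h1 := hcc T hTTc m c x R hc hc0 hR1 hxp
    rw [← hL, ← hG] at h1
    have e1 : L / (2 * Real.pi) * (∫ t in T..(2 * T), G t ^ k) - T * L / (2 * Real.pi) * gM k (VL L c x) =
        T * L / (2 * Real.pi) * (1 / T * (∫ t in T..(2 * T), G t ^ k) - gM k (VL L c x)) := by
      field_simp
    rw [e1, abs_mul, abs_of_pos (by positivity : 0 < T * L / (2 * Real.pi))]
    have h2 : T * L / (2 * Real.pi) ≤ T * L := div_le_self (by positivity) (by linarith)
    calc T * L / (2 * Real.pi) * |1 / T * (∫ t in T..(2 * T), G t ^ k) - gM k (VL L c x)| ≤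
        (T * L) * (Cc * P) := mul_le_mul h2 h1 (abs_nonneg _) (by positivity)
      _ = _ := by ring
  -- the edges
  have hedge : 2 * ((2 * C1 * L) ^ k * ((14 + 4 * C1) * L)) ≤ C0 * (T * L) * P := by
    have h1 : L ^ (k + 1) ≤ ((k + 1).factorial : ℝ) * T := by
      have h2 := Real.pow_div_factorial_le_exp L hL0.le (k + 1)
      rw [hL, Real.exp_log hT0, ← hL, div_le_iff₀ (by positivity)] at h2
      linarith
    have h3 : T ≤ (1 + A) * (T * L * P) := by
      have h4 := mul_le_mul_of_nonneg_left hPlow hT0.le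
      calc T = T * 1 := (mul_one T).symm
        _ ≤ T * (P * ((1 + A) * L)) := h4
        _ = _ := by ring
    calc 2 * ((2 * C1 * L) ^ k * ((14 + 4 * C1) * L)) = 2 * (2 * C1) ^ k * (14 + 4 * C1) * L ^ (k + 1) := by
          rw [mul_pow, pow_succ L k]; ring
      _ ≤ 2 * (2 * C1) ^ k * (14 + 4 * C1) * (((k + 1).factorial : ℝ) * ((1 + A) * (T * L * P))) :=
          mul_le_mul_of_nonneg_left (h1.trans (mul_le_mul_of_nonneg_left h3 (by positivity))) (by positivity)
      _ = _ := by rw [hC0]; ring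
  -- end
  have hfin : |PA N g T W (fun _ t => G t ^ k) - T * L / (2 * Real.pi) * gM k (VL L c x)| ≤
      C0 * (T * L) * P + (lam * T * (C2 + 1) + L / K * (lam * T * ((C2 + C3) * ℓ))) + Cc * (T * L) * P := by
    have e1 : PA N g T W (fun _ t => G t ^ k) - T * L / (2 * Real.pi) * gM k (VL L c x) =
        (PA N g T W (fun _ t => G t ^ k) - 1 / W * ∫ t in T..(2 * T), G t ^ k * D t) +
        ((1 / W * ∫ t in T..(2 * T), G t ^ k * D t) - L / (2 * Real.pi) * ∫ t in T..(2 * T), G t ^ k) +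
        (L / (2 * Real.pi) * (∫ t in T..(2 * T), G t ^ k) - T * L / (2 * Real.pi) * gM k (VL L c x)) := by ring
    rw [e1]
    refine (abs_add_le _ _).trans (add_le_add ((abs_add_le _ _).trans (add_le_add (hstep1.trans hedge) hstep2)) hstep3)
  refine hfin.trans ?_
  have hT2 : lam * T * (C2 + 1) ≤ (C2 + 1) * (1 + A) * (T * L) * P := by
    have := mul_le_mul_of_nonneg_left hlamP (by positivity : 0 ≤ T * (C2 + 1))
    calc lam * T * (C2 + 1) = T * (C2 + 1) * lam := by ring
      _ ≤ T * (C2 + 1) * (P * ((1 + A) * L)) := this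
      _ = _ := by ring
  have hT3 : L / K * (lam * T * ((C2 + C3) * ℓ)) = (C2 + C3) * (T * L) * (lam * ℓ / K) := by
    field_simp
  rw [hT3]
  have hX : 0 ≤ lam * ℓ / K := by positivity
  have hTL : 0 < T * L := by positivity
  have hf1 : 0 ≤ (C2 + C3) * (T * L) * P := by positivity
  have hf2 : 0 ≤ (C0 + (C2 + 1) * (1 + A) + Cc) * (T * L) * (lam * ℓ / K) := by positivity
  calc C0 * (T * L) * P + (lam * T * (C2 + 1) + (C2 + C3) * (T * L) * (lam * ℓ / K)) + Cc * (T * L) * P ≤
      C0 * (T * L) * P + ((C2 + 1) * (1 + A) * (T * L) * P + (C2 + C3) * (T * L) * (lam * ℓ / K)) + Cc * (T * L) * P +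
        (C2 + C3) * (T * L) * P + (C0 + (C2 + 1) * (1 + A) + Cc) * (T * L) * (lam * ℓ / K) := by linarith
    _ = (C0 + (C2 + 1) * (1 + A) + (C2 + C3) + Cc) * (T * L) * (P + lam * ℓ / K) := by ring

end

end Pool.Agent.U492.MV4
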