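import Pool.Agent.U398.MV.Stm4

set_option autoImplicit false

/-! Project MV4 (helper398), package LW, part 1: exchange of the sum over the ordinates and the integral. -/

namespace Pool.Agent.U492.MV4

open MeasureTheory Filter Topology Set Pool.Agent.U398.MV

noncomputable section

variable {N : ℝ → ℕ} {g : ℕ → ℝ} {C1 : ℝ}

theorem Nm (hN : Cnt N g C1) : Measurable fun t => (N t : ℝ) := by
  have h : Monotone fun t => (N t : ℝ) := fun a b hab => by
    show (N a : ℝ) ≤ N b
    exact_mod_cast hN.mono hab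
  exact h.measurable

theorem Mfm : Measurable Mf := by
  unfold Mf
  fun_prop

theorem sgm (hN : Cnt N g C1) : Measurable (sg N) := by
  unfold sg
  exact (Nm hN).sub Mfm

theorem Mf_der {s : ℝ} (hs : 0 < s) : HasDerivAt Mf (1 / (2 * Real.pi) * Real.log (s / (2 * Real.pi))) s := by
  have hpi := Real.pi_pos
  have h0 : s / (2 * Real.pi) ≠ 0 := by positivity
  have h1 : HasDerivAt (fun t : ℝ => t / (2 * Real.pi)) (1 / (2 * Real.pi)) s :=
    (hasDerivAt_id s).div_const _
  have h2 : HasDerivAt (fun t : ℝ => Real.log (t / (2 * Real.pi))) (1 / (2 * Real.pi) / (s / (2 * Real.pi))) s :=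
    h1.log h0
  have h3 := (h1.mul h2).sub h1
  refine h3.congr_deriv ?_
  field_simp
  ring

/-- increments of the smooth part -/
theorem Mf_inc {T t W : ℝ} (hT : 1 ≤ T) (h1 : T / 2 ≤ t) (h2 : t + W ≤ 4 * T) (hW : 0 ≤ W) :
    |Mf (t + W) - Mf t - W * (Real.log T / (2 * Real.pi))| ≤ 2 * W := by
  have hpi := Real.pi_pos
  have hpi3 := Real.pi_gt_three
  have hT0 : 0 < T := by linarith
  set H : ℝ → ℝ := fun s => Mf s - s * (Real.log T / (2 * Real.pi)) with hH
  have hder : ∀ s ∈ Icc (T / 2) (4 * T), HasDerivWithinAt H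
      (1 / (2 * Real.pi) * Real.log (s / (2 * Real.pi)) - Real.log T / (2 * Real.pi)) (Icc (T / 2) (4 * T)) s := by
    intro s hs
    have hs0 : 0 < s := by linarith [hs.1]
    have h3 : HasDerivAt (fun s : ℝ => s * (Real.log T / (2 * Real.pi))) (Real.log T / (2 * Real.pi)) s := by
      simpa using (hasDerivAt_id s).mul_const (Real.log T / (2 * Real.pi))
    exact ((Mf_der hs0).sub h3).hasDerivWithinAt
  have hbd : ∀ s ∈ Icc (T / 2) (4 * T),
      ‖1 / (2 * Real.pi) * Real.log (s / (2 * Real.pi)) - Real.log T / (2 * Real.pi)‖ ≤ 2 := by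
    intro s hs
    have hs0 : 0 < s := by linarith [hs.1]
    have e1 : 1 / (2 * Real.pi) * Real.log (s / (2 * Real.pi)) - Real.log T / (2 * Real.pi) =
        1 / (2 * Real.pi) * Real.log (s / (2 * Real.pi) / T) := by
      rw [Real.log_div (by positivity) hT0.ne']
      ring
    rw [e1, Real.norm_eq_abs, abs_mul, abs_of_pos (by positivity : 0 < 1 / (2 * Real.pi))]
    have h4 : |Real.log (s / (2 * Real.pi) / T)| ≤ 4 * Real.pi := by
      have hy : 0 < s / (2 * Real.pi) / T := by positivity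
      rw [abs_le]
      constructor
      · have h5 := Real.log_le_sub_one_of_pos (inv_pos.2 hy)
        rw [Real.log_inv] at h5
        have h6 : (s / (2 * Real.pi) / T)⁻¹ ≤ 4 * Real.pi := by
          rw [inv_le_comm₀ hy (by positivity), le_div_iff₀ hT0, le_div_iff₀ (by positivity)]
          calc (4 * Real.pi)⁻¹ * T * (2 * Real.pi) = T / 2 := by field_simp; ring
            _ ≤ s := hs.1
        linarith
      · have h5 := Real.log_le_sub_one_of_pos hy
        have h6 : s / (2 * Real.pi) / T ≤ 1 := by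
          rw [div_div, div_le_one (by positivity)]
          nlinarith [hs.2]
        linarith
    calc 1 / (2 * Real.pi) * |Real.log (s / (2 * Real.pi) / T)| ≤ 1 / (2 * Real.pi) * (4 * Real.pi) :=
          mul_le_mul_of_nonneg_left h4 (by positivity)
      _ = 2 := by field_simp; norm_num
  have h7 := Convex.norm_image_sub_le_of_norm_hasDerivWithin_le hder hbd (convex_Icc _ _)
    (x := t) (y := t + W) ⟨h1, by linarith⟩ ⟨by linarith, h2⟩
  have e2 : H (t + W) - H t = Mf (t + W) - Mf t - W * (Real.log T / (2 * Real.pi)) := by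
    simp only [hH]
    ring
  rw [e2, add_sub_cancel_left, Real.norm_eq_abs, Real.norm_eq_abs, abs_of_nonneg hW] at h7
  exact h7

theorem log_four {T t : ℝ} (hT : 20 ≤ T) (ht0 : 0 < t) (ht : t ≤ 4 * T) : Real.log t ≤ 2 * Real.log T := by
  have h1 : Real.log t ≤ Real.log (T ^ 2) := Real.log_le_log ht0 (by nlinarith)
  rw [Real.log_pow] at h1
  exact_mod_cast h1

theorem sgb (hC : 1 ≤ C1) (hN : Cnt N g C1) {T t : ℝ} (hT : 20 ≤ T) (h1 : T / 2 ≤ t) (h2 : t ≤ 4 * T) :
    |sg N t| ≤ 2 * C1 * Real.log T := by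
  have h3 := hN.rvm t (by linarith)
  have h4 := log_four hT (by linarith : 0 < t) h2
  calc |sg N t| ≤ C1 * Real.log t := h3
    _ ≤ C1 * (2 * Real.log T) := mul_le_mul_of_nonneg_left h4 (by linarith)
    _ = _ := by ring

theorem Gfm (hN : Cnt N g C1) {m : ℕ} (c x : Fin m → ℝ) : Measurable (Gf N c x) := by
  unfold Gf
  exact Finset.measurable_sum _ fun i _ => ((sgm hN).comp (measurable_id.add_const _)).const_mul _

theorem Gfb (hC : 1 ≤ C1) (hN : Cnt N g C1) {T t B : ℝ} (hT : 20 ≤ T) (hB : 2 * B ≤ T) {m : ℕ}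
    (c x : Fin m → ℝ) (hc : (∑ i, |c i|) ≤ 1) (hx : ∀ i, 0 ≤ x i ∧ x i ≤ B) (h1 : T / 2 ≤ t)
    (h2 : t ≤ 3 * T) : |Gf N c x t| ≤ 2 * C1 * Real.log T := by
  unfold Gf
  have hL : 0 ≤ 2 * C1 * Real.log T := by
    have : 0 ≤ Real.log T := Real.log_nonneg (by linarith)
    positivity
  calc |∑ i, c i * sg N (t + x i)| ≤ ∑ i, |c i * sg N (t + x i)| := Finset.abs_sum_le_sum_abs _ _
    _ ≤ ∑ i, |c i| * (2 * C1 * Real.log T) := by
        refine Finset.sum_le_sum fun i _ => ?_
        rw [abs_mul]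
        refine mul_le_mul_of_nonneg_left (sgb hC hN hT ?_ ?_) (abs_nonneg _)
        · linarith [(hx i).1]
        · linarith [(hx i).2]
    _ = (∑ i, |c i|) * (2 * C1 * Real.log T) := by rw [Finset.sum_mul]
    _ ≤ 1 * (2 * C1 * Real.log T) := mul_le_mul_of_nonneg_right hc hL
    _ = _ := one_mul _

/-- exchange -/
theorem PA_eq (hN : Cnt N g C1) {T W Mb Db : ℝ} (hW : 0 < W) (hWT : 2 * W ≤ T) (hMb : 0 ≤ Mb)
    {f : ℝ → ℝ} (hf : Measurable f) (hfb : ∀ t, T - W ≤ t → t ≤ 2 * T → |f t| ≤ Mb)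
    (hDb : ∀ t, T - W ≤ t → t ≤ 2 * T → (N (t + W) : ℝ) - N t ≤ Db) :
    |PA N g T W (fun _ t => f t) - 1 / W * ∫ t in T..(2 * T), f t * ((N (t + W) : ℝ) - N t)| ≤
      2 * (Mb * Db) := by
  have hT0 : 0 < T := by linarith
  set S := Finset.Ioc (N T) (N (2 * T)) with hS
  set J : Set ℝ := Ioc (T - W) (2 * T) with hJ
  set μ : Measure ℝ := volume.restrict J with hμ
  have hDm : Measurable fun t => (N (t + W) : ℝ) - N t :=
    ((Nm hN).comp (measurable_id.add_const W)).sub (Nm hN)
  have hD0 : ∀ t, 0 ≤ (N (t + W) : ℝ) - N t := by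
    intro t
    have : N t ≤ N (t + W) := hN.mono (by linarith)
    have h : (N t : ℝ) ≤ N (t + W) := by exact_mod_cast this
    linarith
  have hDb0 : 0 ≤ Db := (hD0 (2 * T)).trans (hDb _ (by linarith) le_rfl)
  have hfi : Integrable f μ := by
    refine Integrable.of_bound hf.aestronglyMeasurable Mb ?_
    filter_upwards [ae_restrict_mem measurableSet_Ioc] with t ht
    exact hfb t ht.1.le ht.2
  have hfDi : Integrable (fun t => f t * ((N (t + W) : ℝ) - N t)) μ := by
    refine Integrable.of_bound (hf.mul hDm).aestronglyMeasurable (Mb * Db) ?_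
    filter_upwards [ae_restrict_mem measurableSet_Ioc] with t ht
    rw [norm_mul]
    refine mul_le_mul (hfb t ht.1.le ht.2) ?_ (norm_nonneg _) hMb
    rw [Real.norm_of_nonneg (hD0 t)]
    exact hDb t ht.1.le ht.2
  -- windows
  have hwin : ∀ n ∈ S, Ioc (g n - W) (g n) ⊆ J := by
    intro n hn
    rw [hS, Finset.mem_Ioc] at hn
    have hn1 : 1 ≤ n := by omega
    have h1 : T < g n := by
      by_contra hcon
      push Not at hcon
      have := (hN.gc n hn1 T).1 hcon
      omega
    have h2 : g n ≤ 2 * T := (hN.gc n hn1 _).2 hn.2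
    intro t ht
    exact ⟨by linarith [ht.1], by linarith [ht.2]⟩
  have hPA : PA N g T W (fun _ t => f t) = 1 / W * ∫ t, (∑ n ∈ S, (Ioc (g n - W) (g n)).indicator f t) ∂μ := by
    unfold PA
    rw [integral_finsetSum _ fun n _ => hfi.indicator measurableSet_Ioc, Finset.mul_sum]
    refine Finset.sum_congr rfl fun n hn => ?_
    congr 1
    rw [intervalIntegral.integral_of_le (by linarith), hμ, setIntegral_indicator measurableSet_Ioc,
      inter_eq_self_of_subset_right (hwin n hn)]
  have hI2 : ∫ t in T..(2 * T), f t * ((N (t + W) : ℝ) - N t) =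
      ∫ t, (Ioc T (2 * T)).indicator (fun t => f t * ((N (t + W) : ℝ) - N t)) t ∂μ := by
    rw [intervalIntegral.integral_of_le (by linarith), hμ, setIntegral_indicator measurableSet_Ioc,
      inter_eq_self_of_subset_right]
    exact fun t ht => ⟨by linarith [ht.1], ht.2⟩
  rw [hPA, hI2, ← mul_sub, ← integral_sub]
  rotate_left
  · exact integrable_finsetSum _ fun n _ => hfi.indicator measurableSet_Ioc
  · exact hfDi.indicator measurableSet_Ioc
  -- the bound
  have hae : ∀ᵐ t ∂μ, ∀ n : ℕ, t ≠ g n ∧ t ≠ g n - W := by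
    apply ae_restrict_of_ae
    rw [ae_all_iff]
    intro n
    have h1 : ∀ᵐ t : ℝ, t ≠ g n := compl_mem_ae_iff.2 (measure_singleton _)
    have h2 : ∀ᵐ t : ℝ, t ≠ g n - W := compl_mem_ae_iff.2 (measure_singleton _)
    filter_upwards [h1, h2] with t a b using ⟨a, b⟩
  have key : ∀ᵐ t ∂μ, ‖(∑ n ∈ S, (Ioc (g n - W) (g n)).indicator f t) -
      (Ioc T (2 * T)).indicator (fun t => f t * ((N (t + W) : ℝ) - N t)) t‖ ≤
      (Ioc (T - W) T).indicator (fun _ => Mb * Db) t + (Ioc (2 * T - W) (2 * T)).indicator (fun _ => Mb * Db) t := by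
    filter_upwards [hae, ae_restrict_mem measurableSet_Ioc] with t hne htJ
    classical
    have hft : |f t| ≤ Mb := hfb t htJ.1.le htJ.2
    have hDt := hDb t htJ.1.le htJ.2
    have hsum : (∑ n ∈ S, (Ioc (g n - W) (g n)).indicator f t) =
        ((Finset.Ioc (max (N T) (N t)) (min (N (2 * T)) (N (t + W)))).card : ℝ) * f t := by
      have h1 : (∑ n ∈ S, (Ioc (g n - W) (g n)).indicator f t) =
          ∑ n ∈ S.filter (fun n => t ∈ Ioc (g n - W) (g n)), f t := by
        rw [Finset.sum_filter]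
        exact Finset.sum_congr rfl fun n _ => Set.indicator_apply _ _ _
      rw [h1, Finset.sum_const, nsmul_eq_mul]
      congr 3
      ext n
      rw [Finset.mem_filter, hS, Finset.mem_Ioc, Finset.mem_Ioc, mem_Ioc]
      constructor
      · rintro ⟨⟨h2, h3⟩, h4, h5⟩
        have hn1 : 1 ≤ n := by omega
        have h6 : N t < n := by
          by_contra hcon
          push Not at hcon
          have := (hN.gc n hn1 t).2 hcon
          exact (hne n).1 (le_antisymm h5 this)
        have h7 : n ≤ N (t + W) := (hN.gc n hn1 _).1 (by linarith)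
        exact ⟨max_lt h2 h6, le_min h3 h7⟩
      · rintro ⟨h2, h3⟩
        rw [max_lt_iff] at h2
        rw [le_min_iff] at h3
        have hn1 : 1 ≤ n := by omega
        refine ⟨⟨h2.1, h3.1⟩, ?_, ?_⟩
        · have h4 := (hN.gc n hn1 _).2 h3.2
          have h5 := (hne n).2
          rcases lt_or_eq_of_le h4 with h6 | h6
          · linarith
          · exact absurd (by linarith) h5
        · by_contra hcon
          push Not at hcon
          have := (hN.gc n hn1 t).1 hcon.le
          omega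
    rw [hsum]
    set ν : ℕ := (Finset.Ioc (max (N T) (N t)) (min (N (2 * T)) (N (t + W)))).card with hν
    have hmono : N t ≤ N (t + W) := hN.mono (by linarith)
    have hνD : (ν : ℝ) ≤ (N (t + W) : ℝ) - N t := by
      have h1 : ν ≤ N (t + W) - N t := by
        rw [hν, Nat.card_Ioc]
        omega
      have h2 : ((N (t + W) - N t : ℕ) : ℝ) = (N (t + W) : ℝ) - N t := by
        rw [Nat.cast_sub hmono]
      rw [← h2]
      exact_mod_cast h1
    have hν0 : (0 : ℝ) ≤ ν := Nat.cast_nonneg _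
    have hDD := hD0 t
    have hi1 : 0 ≤ (Ioc (T - W) T).indicator (fun _ => Mb * Db) t :=
      Set.indicator_nonneg (fun _ _ => mul_nonneg hMb hDb0) t
    have hi2 : 0 ≤ (Ioc (2 * T - W) (2 * T)).indicator (fun _ => Mb * Db) t :=
      Set.indicator_nonneg (fun _ _ => mul_nonneg hMb hDb0) t
    by_cases hc1 : t ≤ T
    · rw [Set.indicator_of_notMem (s := Ioc T (2 * T)) (fun h => absurd h.1 (not_lt.2 hc1)), sub_zero,
        Set.indicator_of_mem (s := Ioc (T - W) T) ⟨htJ.1, hc1⟩]
      rw [Real.norm_eq_abs, abs_mul, abs_of_nonneg hν0]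
      have h3 : (ν : ℝ) * |f t| ≤ Db * Mb := mul_le_mul (hνD.trans hDt) hft (abs_nonneg _) hDb0
      linarith
    · push Not at hc1
      rw [Set.indicator_of_mem (s := Ioc T (2 * T)) ⟨hc1, htJ.2⟩]
      by_cases hc2 : t ≤ 2 * T - W
      · have h1 : ν = N (t + W) - N t := by
          have h2 : N T ≤ N t := hN.mono hc1.le
          have h3 : N (t + W) ≤ N (2 * T) := hN.mono (by linarith)
          rw [hν, Nat.card_Ioc, max_eq_right h2, min_eq_right h3]
        have h4 : (ν : ℝ) = (N (t + W) : ℝ) - N t := by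
          rw [h1, Nat.cast_sub hmono]
        rw [h4, mul_comm (f t), sub_self, norm_zero]
        exact add_nonneg hi1 hi2
      · push Not at hc2
        rw [Set.indicator_of_mem (s := Ioc (2 * T - W) (2 * T)) ⟨hc2, htJ.2⟩]
        have e : (ν : ℝ) * f t - f t * ((N (t + W) : ℝ) - N t) = -((((N (t + W) : ℝ) - N t) - ν) * f t) := by ring
        rw [e, norm_neg, Real.norm_eq_abs, abs_mul, abs_of_nonneg (by linarith)]
        have h3 : (((N (t + W) : ℝ) - N t) - ν) * |f t| ≤ Db * Mb :=
          mul_le_mul (by linarith) hft (abs_nonneg _) hDb0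
        linarith
  have hgi1 : Integrable ((Ioc (T - W) T).indicator (fun _ => Mb * Db)) μ :=
    (integrable_const _).indicator measurableSet_Ioc
  have hgi2 : Integrable ((Ioc (2 * T - W) (2 * T)).indicator (fun _ => Mb * Db)) μ :=
    (integrable_const _).indicator measurableSet_Ioc
  have hfin := norm_integral_le_of_norm_le (hgi1.add hgi2) key
  have hI : ∫ t, (Ioc (T - W) T).indicator (fun _ => Mb * Db) t + (Ioc (2 * T - W) (2 * T)).indicator (fun _ => Mb * Db) t ∂μ
      = 2 * W * (Mb * Db) := by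
    rw [integral_add hgi1 hgi2, integral_indicator_const _ measurableSet_Ioc,
      integral_indicator_const _ measurableSet_Ioc, hμ, measureReal_restrict_apply measurableSet_Ioc,
      measureReal_restrict_apply measurableSet_Ioc]
    have s1 : Ioc (T - W) T ∩ J = Ioc (T - W) T := inter_eq_self_of_subset_left fun t ht =>
      ⟨ht.1, by linarith [ht.2]⟩
    have s2 : Ioc (2 * T - W) (2 * T) ∩ J = Ioc (2 * T - W) (2 * T) := inter_eq_self_of_subset_left fun t ht =>
      ⟨by linarith [ht.1], ht.2⟩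
    rw [s1, s2, Real.volume_real_Ioc_of_le (by linarith), Real.volume_real_Ioc_of_le (by linarith),
      smul_eq_mul, smul_eq_mul]
    ring
  have hfin' : |∫ t, ((∑ n ∈ S, (Ioc (g n - W) (g n)).indicator f t) -
      (Ioc T (2 * T)).indicator (fun t => f t * ((N (t + W) : ℝ) - N t)) t) ∂μ| ≤ 2 * W * (Mb * Db) := by
    rw [← hI]
    exact hfin
  rw [abs_mul, abs_of_pos (by positivity : 0 < 1 / W)]
  calc 1 / W * |∫ t, ((∑ n ∈ S, (Ioc (g n - W) (g n)).indicator f t) -
      (Ioc T (2 * T)).indicator (fun t => f t * ((N (t + W) : ℝ) - N t)) t) ∂μ| ≤ 1 / W * (2 * W * (Mb * Db)) :=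
        mul_le_mul_of_nonneg_left hfin' (by positivity)
    _ = 2 * (Mb * Db) := by field_simp

end

end Pool.Agent.U492.MV4
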